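import Mathlib
import Pool.Agent.H34.TriR0
import Pool.Agent.H34.TriR1
import Pool.Agent.H34.TriR2
import Pool.Agent.H34.TriR3
import Pool.Agent.H34.TriR4

namespace Pool.Agent.Results.MP_3093d2_nt.Counter
open Pool.Agent.H34.Tri

/-- Q1 is false: for `n = 1471` no positive `k < p_n / 2` makes `π(kn)` triangular
(`p_n = Nat.nth Nat.Prime (n - 1)`, as `Nat.nth` counts from `0`). -/
theorem result : ¬ ∀ n : ℕ, 9 < n → ∃ k : ℕ, 0 < k ∧
    (k : ℝ) < (Nat.nth Nat.Prime (n - 1) : ℝ) / 2 ∧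
    ∃ m : ℕ, Nat.primeCounting (k * n) = m * (m + 1) / 2 := by
  intro h
  obtain ⟨k, h1, h2, m, h3⟩ := h 1471 (by norm_num)
  have q := r4 (r3 (r2 (r1 (r0 q1))))
  have h4 : 2 * k < Nat.nth Nat.Prime 1470 := by
    have : ((2 * k : ℕ) : ℝ) < (Nat.nth Nat.Prime 1470 : ℝ) := by
      push_cast
      have e : (1471 - 1 : ℕ) = 1470 := rfl
      rw [e] at h2
      linarith
    exact_mod_cast this
  have h5 := nth_lt
  exact nt_spec _ (q.2 k h1 (by omega)) m h3

end Pool.Agent.Results.MP_3093d2_nt.Counter
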